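import Pool.Agent.X37.FE.Stm

namespace Pool.Agent.X279.FE

open RealInnerProductSpace Pool.Agent.X37.FE

theorem key {H : Type*} [NormedAddCommGroup H] [InnerProductSpace ℝ H] {u y : H} {δ : ℝ}
    (hδ : 0 < δ) (h : 0 ≤ ⟪u, y⟫) : ‖u‖ ≤ ‖u + δ • y‖ ∧ ‖δ • y‖ ≤ ‖u + δ • y‖ := by
  have h1 : ‖u + δ • y‖ ^ 2 = ‖u‖ ^ 2 + 2 * ⟪u, δ • y⟫ + ‖δ • y‖ ^ 2 := norm_add_sq_real u (δ • y)
  have h2 : 0 ≤ ⟪u, δ • y⟫ := by
    rw [inner_smul_right]; exact mul_nonneg hδ.le h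
  constructor
  · apply le_of_sq_le_sq _ (norm_nonneg _)
    nlinarith [sq_nonneg ‖δ • y‖]
  · apply le_of_sq_le_sq _ (norm_nonneg _)
    nlinarith [sq_nonneg ‖u‖]

theorem t (H : Type*) [NormedAddCommGroup H] [InnerProductSpace ℝ H] [CompleteSpace H] :
    S_YOS H := by
  intro B hsym hnn δ hδ
  set C : H →L[ℝ] H := B + δ • ContinuousLinearMap.id ℝ H with hC
  have hCx : ∀ x, C x = B x + δ • x := fun x => rfl
  have hunit : IsUnit C := by
    refine ContinuousLinearMap.isUnit_of_forall_le_norm_inner_map C (c := ⟨δ, hδ.le⟩)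
      (by exact_mod_cast hδ) ?_
    intro x
    have h1 : ⟪C x, x⟫ = ⟪B x, x⟫ + δ * ‖x‖ ^ 2 := by
      rw [hCx, inner_add_left, inner_smul_left, real_inner_self_eq_norm_sq]
      simp
    have h2 : ‖x‖ ^ 2 * δ ≤ ⟪C x, x⟫ := by
      rw [h1]; nlinarith [hnn x]
    exact h2.trans (le_abs_self _)
  obtain ⟨w, hw⟩ := hunit
  set L : H →L[ℝ] H := ((w⁻¹ : (H →L[ℝ] H)ˣ) : H →L[ℝ] H) with hL
  have hCL : ∀ x, C (L x) = x := by
    intro x
    have : (C * L) x = x := by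
      rw [← hw, hL, Units.mul_inv]; rfl
    exact this
  have hLC : ∀ x, L (C x) = x := by
    intro x
    have : (L * C) x = x := by
      rw [← hw, hL, Units.inv_mul]; rfl
    exact this
  have h1 : ∀ x, L (B x) + δ • L x = x := by
    intro x
    have := hLC x
    rw [hCx, map_add, map_smul] at this
    exact this
  have h2 : ∀ x, B (L x) + δ • L x = x := fun x => by rw [← hCx]; exact hCL x
  have h3 : ∀ x, L (B x) = B (L x) := by
    intro x
    have := (h1 x).trans (h2 x).symm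
    exact add_right_cancel this
  have hCs : ∀ x y, ⟪C x, y⟫ = ⟪x, C y⟫ := by
    intro x y
    rw [hCx, hCx, inner_add_left, inner_add_right, hsym, inner_smul_left, inner_smul_right]
    simp
  refine ⟨L, h1, h2, ?_, ?_, ?_, ?_⟩
  · intro x y
    calc ⟪L x, y⟫ = ⟪L x, C (L y)⟫ := by rw [hCL]
      _ = ⟪C (L x), L y⟫ := (hCs _ _).symm
      _ = ⟪x, L y⟫ := by rw [hCL]
  · intro x
    have h4 : ⟪L x, x⟫ = ⟪L x, B (L x)⟫ + δ * ‖L x‖ ^ 2 := by
      calc ⟪L x, x⟫ = ⟪L x, B (L x) + δ • L x⟫ := by rw [h2 x]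
        _ = ⟪L x, B (L x)⟫ + δ * ‖L x‖ ^ 2 := by
          rw [inner_add_right, inner_smul_right, real_inner_self_eq_norm_sq]
    rw [h4, real_inner_comm]
    have := hnn (L x)
    positivity
  · intro x
    rw [h3]
    have := (key hδ (hnn (L x))).1
    rwa [h2 x] at this
  · intro x
    have := (key hδ (hnn (L x))).2
    rwa [h2 x] at this

end Pool.Agent.X279.FE
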